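import Pool.Agent.H295R3.D6.Stmts

set_option autoImplicit false

/-! # Task ALSU of the project H295-D6 -/

open Finset Filter

namespace Pool.Agent.H884R3.D6

open Pool.Agent.H295R3.D6

/-- the condition on `p` -/
def Pc (k j l B p : ℕ) : Prop := ∀ q : ℕ, q.Prime → B < 2 * q → q ≤ B →
  ((∃ x, x < l ∧ x ≤ k * p ∧ q ∣ k * p - x) ∨ hit q (j * p) l)

open Classical in
theorem union_bound (η c₁ : ℝ) (N : ℕ) (hη : 0 < η) (hN : 3 ≤ N) (X : ℝ) (hX : 0 ≤ X)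
    (h : ∀ k j l B : ℕ, 1 ≤ k → (k : ℝ) ≤ (N : ℝ) ^ η → 1 ≤ j → (j : ℝ) ≤ (N : ℝ) ^ η →
      1 ≤ l → (l : ℝ) ≤ (N : ℝ) ^ (3 * η) → c₁ * l * Real.log N ≤ B →
      (B : ℝ) ≤ 6 * l * Real.log N →
      (({p : ℕ | 1 ≤ p ∧ p ≤ N ∧ Pc k j l B p}).ncard : ℝ) ≤ X) :
    ((E5 η c₁ N).ncard : ℝ) ≤
      (N : ℝ) ^ η * ((N : ℝ) ^ η * ((N : ℝ) ^ (3 * η) *
        (6 * (N : ℝ) ^ (3 * η) * Real.log N + 1))) * X := by
  have hN1 : (1 : ℝ) ≤ N := by exact_mod_cast (by omega : 1 ≤ N)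
  have hlog : 0 ≤ Real.log N := Real.log_nonneg hN1
  set K := ⌊(N : ℝ) ^ η⌋₊ with hK
  set L := ⌊(N : ℝ) ^ (3 * η)⌋₊ with hL
  set M := ⌊6 * (N : ℝ) ^ (3 * η) * Real.log N⌋₊ with hM
  have hKle : (K : ℝ) ≤ (N : ℝ) ^ η := Nat.floor_le (by positivity)
  have hLle : (L : ℝ) ≤ (N : ℝ) ^ (3 * η) := Nat.floor_le (by positivity)
  have hMle : (M : ℝ) ≤ 6 * (N : ℝ) ^ (3 * η) * Real.log N := Nat.floor_le (by positivity)
  -- the index set
  set idx : Finset (ℕ × ℕ × ℕ × ℕ) :=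
    (Icc 1 K ×ˢ (Icc 1 K ×ˢ (Icc 1 L ×ˢ range (M + 1)))).filter
      (fun i => c₁ * i.2.2.1 * Real.log N ≤ i.2.2.2 ∧ (i.2.2.2 : ℝ) ≤ 6 * i.2.2.1 * Real.log N)
    with hidx
  set T : ℕ × ℕ × ℕ × ℕ → Finset ℕ := fun i =>
    ((Icc 1 N).filter (fun p => Pc i.1 i.2.1 i.2.2.1 i.2.2.2 p)).image (fun p => i.1 * p) with hT
  have hsub : E5 η c₁ N ⊆ ↑(idx.biUnion T) := by
    rintro m ⟨hm1, hmN, k, p, j, l, B, rfl, hk1, hk, hj1, hj, hl1, hl, hB1, hB2, hq⟩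
    rw [coe_biUnion, Set.mem_iUnion₂]
    have hp1 : 1 ≤ p := by
      rcases Nat.eq_zero_or_pos p with h0 | h0
      · subst h0; simp at hm1
      · exact h0
    have hpN : p ≤ N := le_trans (Nat.le_mul_of_pos_left p (by omega)) hmN
    refine ⟨(k, j, l, B), ?_, ?_⟩
    · simp only [hidx, mem_coe, mem_filter, mem_product, mem_Icc, mem_range]
      refine ⟨⟨⟨hk1, Nat.le_floor hk⟩, ⟨hj1, Nat.le_floor hj⟩, ⟨hl1, Nat.le_floor hl⟩,
        Nat.lt_succ_of_le (Nat.le_floor ?_)⟩, hB1, hB2⟩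
      refine hB2.trans ?_
      gcongr
    · simp only [hT, mem_coe, mem_image, mem_filter, mem_Icc]
      exact ⟨p, ⟨⟨hp1, hpN⟩, hq⟩, rfl⟩
  have hTcard : ∀ i ∈ idx, ((T i).card : ℝ) ≤ X := by
    rintro ⟨k, j, l, B⟩ hi
    simp only [hidx, mem_filter, mem_product, mem_Icc, mem_range] at hi
    obtain ⟨⟨⟨hk1, hk⟩, ⟨hj1, hj⟩, ⟨hl1, hl⟩, hB⟩, hB1, hB2⟩ := hi
    have h1 := h k j l B hk1 ((Nat.cast_le.2 hk).trans hKle) hj1
      ((Nat.cast_le.2 hj).trans hKle) hl1 ((Nat.cast_le.2 hl).trans hLle) hB1 hB2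
    refine le_trans ?_ h1
    have h2 : {p : ℕ | 1 ≤ p ∧ p ≤ N ∧ Pc k j l B p} =
        ↑((Icc 1 N).filter (fun p => Pc k j l B p)) := by
      ext p
      simp only [Set.mem_setOf_eq, coe_filter, mem_Icc, and_assoc]
    rw [h2, Set.ncard_coe_finset]
    exact_mod_cast card_image_le
  have hcard : ((E5 η c₁ N).ncard : ℝ) ≤ ((idx.biUnion T).card : ℝ) := by
    rw [← Set.ncard_coe_finset (idx.biUnion T)]
    exact_mod_cast Set.ncard_le_ncard hsub (Finset.finite_toSet _)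
  have hsum : ((idx.biUnion T).card : ℝ) ≤ (idx.card : ℝ) * X := by
    calc ((idx.biUnion T).card : ℝ) ≤ ∑ i ∈ idx, ((T i).card : ℝ) := by
          exact_mod_cast card_biUnion_le
      _ ≤ ∑ _i ∈ idx, X := sum_le_sum hTcard
      _ = _ := by rw [sum_const, nsmul_eq_mul]
  have hidxc : (idx.card : ℝ) ≤ (N : ℝ) ^ η * ((N : ℝ) ^ η * ((N : ℝ) ^ (3 * η) *
        (6 * (N : ℝ) ^ (3 * η) * Real.log N + 1))) := by
    have h3 : idx.card ≤ K * (K * (L * (M + 1))) := by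
      refine (card_filter_le _ _).trans ?_
      simp [card_product]
    have h4 : (idx.card : ℝ) ≤ (K : ℝ) * ((K : ℝ) * ((L : ℝ) * ((M : ℝ) + 1))) := by
      exact_mod_cast h3
    refine h4.trans ?_
    gcongr
  calc ((E5 η c₁ N).ncard : ℝ) ≤ (idx.card : ℝ) * X := hcard.trans hsum
    _ ≤ _ := mul_le_mul_of_nonneg_right hidxc hX

theorem numeric (η : ℝ) (hη : 0 < η) (hη1 : η ≤ 1 / 100) : ∀ᶠ N : ℕ in atTop,
    (N : ℝ) ^ η * ((N : ℝ) ^ η * ((N : ℝ) ^ (3 * η) *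
        (6 * (N : ℝ) ^ (3 * η) * Real.log N + 1))) * (N : ℝ) ^ (2 / 3 : ℝ) ≤
      (N : ℝ) ^ (9 / 10 : ℝ) := by
  have h1 : ∀ᶠ x : ℝ in atTop, 6 * Real.log x + 1 ≤ x ^ (1 / 10 : ℝ) := by
    have ha : Tendsto (fun x : ℝ => (6 * Real.log x + 1) / x ^ (1 / 10 : ℝ)) atTop (nhds 0) := by
      have hb : Tendsto (fun x : ℝ => Real.log x / x ^ (1 / 10 : ℝ)) atTop (nhds 0) :=
        (isLittleO_log_rpow_atTop (by norm_num : (0 : ℝ) < 1 / 10)).tendsto_div_nhds_zero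
      have hc : Tendsto (fun x : ℝ => 1 / x ^ (1 / 10 : ℝ)) atTop (nhds 0) :=
        tendsto_const_nhds.div_atTop (tendsto_rpow_atTop (by norm_num : (0 : ℝ) < 1 / 10))
      have hd := (hb.const_mul 6).add hc
      simp only [mul_zero, add_zero] at hd
      refine hd.congr fun x => ?_
      ring
    filter_upwards [ha.eventually_le_const (show (0 : ℝ) < 1 by norm_num), eventually_gt_atTop 0]
      with x hx hx0
    have hp : 0 < x ^ (1 / 10 : ℝ) := Real.rpow_pos_of_pos hx0 _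
    rwa [div_le_one hp] at hx
  filter_upwards [tendsto_natCast_atTop_atTop.eventually h1, eventually_ge_atTop 3] with N hN hN3
  have hN1 : (1 : ℝ) ≤ N := by exact_mod_cast (by omega : 1 ≤ N)
  have hN0 : (0 : ℝ) < N := by linarith
  have hlog : 0 ≤ Real.log N := Real.log_nonneg hN1
  have h2 : 6 * (N : ℝ) ^ (3 * η) * Real.log N + 1 ≤ (N : ℝ) ^ (3 * η) * (N : ℝ) ^ (1 / 10 : ℝ) := by
    have h3 : (1 : ℝ) ≤ (N : ℝ) ^ (3 * η) := Real.one_le_rpow hN1 (by positivity)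
    calc 6 * (N : ℝ) ^ (3 * η) * Real.log N + 1 ≤
          (N : ℝ) ^ (3 * η) * (6 * Real.log N + 1) := by nlinarith
      _ ≤ _ := mul_le_mul_of_nonneg_left hN (by positivity)
  calc (N : ℝ) ^ η * ((N : ℝ) ^ η * ((N : ℝ) ^ (3 * η) *
        (6 * (N : ℝ) ^ (3 * η) * Real.log N + 1))) * (N : ℝ) ^ (2 / 3 : ℝ)
      ≤ (N : ℝ) ^ η * ((N : ℝ) ^ η * ((N : ℝ) ^ (3 * η) *
        ((N : ℝ) ^ (3 * η) * (N : ℝ) ^ (1 / 10 : ℝ)))) * (N : ℝ) ^ (2 / 3 : ℝ) := by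
        gcongr
    _ = (N : ℝ) ^ (η + (η + (3 * η + (3 * η + 1 / 10))) + 2 / 3) := by
        rw [Real.rpow_add hN0, Real.rpow_add hN0, Real.rpow_add hN0, Real.rpow_add hN0,
          Real.rpow_add hN0]
    _ ≤ (N : ℝ) ^ (9 / 10 : ℝ) := by
        refine Real.rpow_le_rpow_of_exponent_le hN1 ?_
        linarith

theorem taskALSU : TaskALSU := by
  intro hALS hLS hCh c₁ hc₁
  obtain ⟨η₁, hη₁, h⟩ := hALS hLS hCh c₁ hc₁
  refine ⟨min η₁ (1 / 100), lt_min hη₁ (by norm_num), ?_⟩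
  intro η hη hηle
  filter_upwards [h η hη (hηle.trans (min_le_left _ _)),
    numeric η hη (hηle.trans (min_le_right _ _)), eventually_ge_atTop 3] with N h1 h2 h3
  exact (union_bound η c₁ N hη h3 ((N : ℝ) ^ (2 / 3 : ℝ)) (by positivity) h1).trans h2

end Pool.Agent.H884R3.D6
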